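import Pool.Agent.H47.L.R_seed8.H921R2.TatePole.Base

set_option autoImplicit false

open Complex Filter Topology NumberField IsDedekindDomain

namespace Pool.Agent.H921R2.TatePole

section
variable {K : Type} [Field K] [NumberField K] {J : Type} [Fintype J]

/-- Euler product over the primes of `K` -/
noncomputable def kL (c : HeightOneSpectrum (𝓞 K) → J → ℂ) (s : ℂ) : ℂ :=
  ∏' v : HeightOneSpectrum (𝓞 K), ∏ j : J, (1 - c v j * ((Ideal.absNorm v.asIdeal : ℕ) : ℂ) ^ (-s))⁻¹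

lemma nm_cpow_norm (v : HeightOneSpectrum (𝓞 K)) (s : ℂ) :
    ‖((nm v : ℕ) : ℂ) ^ (-s)‖ = (nm v : ℝ) ^ (-s.re) := by
  rw [Complex.norm_natCast_cpow_of_pos (by have := two_le_nm v; omega)]
  simp

lemma kL_aux {c : HeightOneSpectrum (𝓞 K) → J → ℂ} (hc : ∀ v j, ‖c v j‖ ≤ 1) {s : ℂ}
    (hs : 1 < s.re) :
    (∀ v j, ‖c v j * ((nm v : ℕ) : ℂ) ^ (-s)‖ ≤ (nm v : ℝ) ^ (-s.re)) ∧
    (∀ v j, ‖c v j * ((nm v : ℕ) : ℂ) ^ (-s)‖ ≤ 1 / 2) ∧
    (∀ v j, 1 - c v j * ((nm v : ℕ) : ℂ) ^ (-s) ≠ 0) := by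
  have hz : ∀ v j, ‖c v j * ((nm v : ℕ) : ℂ) ^ (-s)‖ ≤ (nm v : ℝ) ^ (-s.re) := by
    intro v j
    rw [norm_mul, nm_cpow_norm]
    exact mul_le_of_le_one_left (by positivity) (hc v j)
  have hz2 : ∀ v j, ‖c v j * ((nm v : ℕ) : ℂ) ^ (-s)‖ ≤ 1 / 2 := fun v j =>
    (hz v j).trans (nm_rpow_le_half v hs.le)
  refine ⟨hz, hz2, ?_⟩
  intro v j h
  have h1 : c v j * ((nm v : ℕ) : ℂ) ^ (-s) = 1 := (sub_eq_zero.mp h).symm
  have := hz2 v j
  rw [h1] at this
  norm_num at this

lemma kL_summable {c : HeightOneSpectrum (𝓞 K) → J → ℂ} (hc : ∀ v j, ‖c v j‖ ≤ 1) {s : ℂ}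
    (hs : 1 < s.re) :
    Summable (fun v : HeightOneSpectrum (𝓞 K) =>
      ∑ j, -log (1 - c v j * ((nm v : ℕ) : ℂ) ^ (-s))) := by
  obtain ⟨hz, _, _⟩ := kL_aux hc hs
  refine summable_sum fun j _ => ?_
  exact (Summable.of_norm_bounded (nm_summable hs) (fun v => hz v j)).clog_one_sub.neg

lemma kL_multipliable {c : HeightOneSpectrum (𝓞 K) → J → ℂ} (hc : ∀ v j, ‖c v j‖ ≤ 1) {s : ℂ}
    (hs : 1 < s.re) :
    Multipliable (fun v : HeightOneSpectrum (𝓞 K) =>
      ∏ j : J, (1 - c v j * ((nm v : ℕ) : ℂ) ^ (-s))⁻¹) := by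
  obtain ⟨_, _, hne⟩ := kL_aux hc hs
  refine (kL_summable hc hs).hasSum.cexp.multipliable.congr fun v => ?_
  simp only [Function.comp_apply]
  rw [Complex.exp_sum]
  refine Finset.prod_congr rfl fun j _ => ?_
  rw [Complex.exp_neg, Complex.exp_log (hne v j)]

lemma kL_exp {c : HeightOneSpectrum (𝓞 K) → J → ℂ} (hc : ∀ v j, ‖c v j‖ ≤ 1) {s : ℂ}
    (hs : 1 < s.re) :
    kL c s = exp (∑' v : HeightOneSpectrum (𝓞 K),
      ∑ j, -log (1 - c v j * ((nm v : ℕ) : ℂ) ^ (-s))) := by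
  obtain ⟨_, _, hne⟩ := kL_aux hc hs
  have H := (kL_summable hc hs).hasSum.cexp.tprod_eq
  rw [← H]
  unfold kL
  refine tprod_congr fun v => ?_
  simp only [Function.comp_apply]
  rw [Complex.exp_sum]
  refine Finset.prod_congr rfl fun j _ => ?_
  rw [Complex.exp_neg, Complex.exp_log (hne v j)]
  rfl

lemma kL_log {c : HeightOneSpectrum (𝓞 K) → J → ℂ} (hc : ∀ v j, ‖c v j‖ ≤ 1) {x : ℝ}
    (hx : 1 < x) :
    kL c (x : ℂ) ≠ 0 ∧
    |Real.log ‖kL c (x : ℂ)‖ -
      ∑' v : HeightOneSpectrum (𝓞 K), (∑ j, c v j).re * (nm v : ℝ) ^ (-x)| ≤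
        Fintype.card J * CK K := by
  classical
  have hs : (1 : ℝ) < ((x : ℂ)).re := by simpa using hx
  obtain ⟨hz, hz2, hne⟩ := kL_aux hc hs
  have hlog := kL_summable hc hs
  have hexp := kL_exp hc hs
  refine ⟨by rw [hexp]; exact Complex.exp_ne_zero _, ?_⟩
  rw [hexp, Complex.norm_exp, Real.log_exp, Complex.re_tsum hlog]
  have hr1 : Summable (fun v : HeightOneSpectrum (𝓞 K) =>
      (∑ j, -log (1 - c v j * ((nm v : ℕ) : ℂ) ^ (-(x : ℂ)))).re) :=
    (Complex.hasSum_re hlog.hasSum).summable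
  have hcr : ∀ v, |(∑ j, c v j).re| ≤ (Fintype.card J : ℝ) := by
    intro v
    refine (Complex.abs_re_le_norm _).trans ((norm_sum_le _ _).trans ?_)
    calc ∑ j, ‖c v j‖ ≤ ∑ _j : J, (1 : ℝ) := Finset.sum_le_sum fun j _ => hc v j
      _ = Fintype.card J := by simp
  have hr2 : Summable (fun v : HeightOneSpectrum (𝓞 K) =>
      (∑ j, c v j).re * (nm v : ℝ) ^ (-x)) := by
    refine Summable.of_norm_bounded ((nm_summable hx).mul_left (Fintype.card J : ℝ)) fun v => ?_
    rw [norm_mul, Real.norm_eq_abs, Real.norm_eq_abs, abs_of_nonneg (a := (nm v : ℝ) ^ (-x))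
      (by positivity)]
    exact mul_le_mul_of_nonneg_right (hcr v) (by positivity)
  rw [← Summable.tsum_sub hr1 hr2]
  have hbd : ∀ v : HeightOneSpectrum (𝓞 K),
      |(∑ j, -log (1 - c v j * ((nm v : ℕ) : ℂ) ^ (-(x : ℂ)))).re -
      (∑ j, c v j).re * (nm v : ℝ) ^ (-x)| ≤ Fintype.card J * (nm v : ℝ) ^ (-(2 * x)) := by
    intro v
    have hreal : ((nm v : ℕ) : ℂ) ^ (-(x : ℂ)) = (((nm v : ℝ) ^ (-x) : ℝ) : ℂ) := by
      rw [Complex.ofReal_cpow (by positivity)]
      simp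
    have e1 : (∑ j, -log (1 - c v j * ((nm v : ℕ) : ℂ) ^ (-(x : ℂ)))).re -
      (∑ j, c v j).re * (nm v : ℝ) ^ (-x) =
      ∑ j, (-Real.log ‖1 - c v j * ((nm v : ℕ) : ℂ) ^ (-(x : ℂ))‖ -
        (c v j * ((nm v : ℕ) : ℂ) ^ (-(x : ℂ))).re) := by
      rw [Complex.re_sum, Complex.re_sum, Finset.sum_mul, ← Finset.sum_sub_distrib]
      refine Finset.sum_congr rfl fun j _ => ?_
      rw [Complex.neg_re, Complex.log_re, hreal, Complex.re_mul_ofReal]
    rw [e1]
    calc |∑ j, (-Real.log ‖1 - c v j * ((nm v : ℕ) : ℂ) ^ (-(x : ℂ))‖ -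
        (c v j * ((nm v : ℕ) : ℂ) ^ (-(x : ℂ))).re)|
        ≤ ∑ j, |-Real.log ‖1 - c v j * ((nm v : ℕ) : ℂ) ^ (-(x : ℂ))‖ -
        (c v j * ((nm v : ℕ) : ℂ) ^ (-(x : ℂ))).re| := Finset.abs_sum_le_sum_abs _ _
      _ ≤ ∑ j : J, (nm v : ℝ) ^ (-(2 * x)) := by
          refine Finset.sum_le_sum fun j _ => ?_
          refine (log_norm_one_sub (hz2 v j)).trans ?_
          rw [← rpow_sq']
          have := hz v j
          rw [Complex.ofReal_re] at this
          exact pow_le_pow_left₀ (norm_nonneg _) this 2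
      _ = Fintype.card J * (nm v : ℝ) ^ (-(2 * x)) := by simp
  have := tsum_of_norm_bounded (f := fun v : HeightOneSpectrum (𝓞 K) =>
      ((∑ j, -log (1 - c v j * ((nm v : ℕ) : ℂ) ^ (-(x : ℂ)))).re -
        (∑ j, c v j).re * (nm v : ℝ) ^ (-x)))
      ((nm_summable (K := K) (x := 2 * x) (by linarith)).mul_left (Fintype.card J : ℝ)).hasSum
      (fun v => by rw [Real.norm_eq_abs]; exact hbd v)
  rw [Real.norm_eq_abs, tsum_mul_left] at this
  exact this.trans (mul_le_mul_of_nonneg_left (tsum_nm_two_mul_le hx) (by positivity))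

/-- the sum over the primes with `R(p)` -/
lemma sum_R_bdd : Bdd (fun x => ∑' p : Nat.Primes, ((R K p : ℝ) - 1) * w x p) := by
  have h1 := prime_sum_bdd (K := K)
  have h2 := W_sub_Lam_bdd
  have h3 : Bdd (fun x => ∑' v : HeightOneSpectrum (𝓞 K), (nm v : ℝ) ^ (-x) -
      ∑' p : Nat.Primes, (R K p : ℝ) * w x p) := by
    refine ⟨1 * Module.finrank ℚ K * C0, ?_⟩
    filter_upwards [self_mem_nhdsWithin] with x hx
    have h := deg_two_bound (K := K) hx (g := fun _ => 1) (C := 1) (fun v => by simp)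
    simp only [one_mul] at h ⊢
    refine le_trans (le_of_eq ?_) h
    congr 2
    refine tsum_congr fun p => ?_
    unfold R
    rw [Finset.card_filter]
    push_cast
    rfl
  refine ((h1.sub h3).sub h2).congr fun x hx => ?_
  have hs1 : Summable (fun p : Nat.Primes => (R K p : ℝ) * w x p) :=
    bddmul_summable hx (C := Module.finrank ℚ K) fun p => by
      rw [abs_of_nonneg (by positivity)]; exact_mod_cast R_le p
  have e : ∀ p : Nat.Primes, ((R K p : ℝ) - 1) * w x p = (R K p : ℝ) * w x p - w x p :=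
    fun p => by ring
  rw [tsum_congr e, Summable.tsum_sub hs1 (w_summable hx)]
  have : W x = ∑' p, w x p := rfl
  rw [this]
  ring

open Classical in
variable (K) in
/-- `∑ p^{-x}` over the primes without a degree one prime above -/
noncomputable def D0 (x : ℝ) : ℝ := ∑' p : Nat.Primes, (if R K p = 0 then 1 else 0) * w x p

/-- **Base change inequality.** -/
lemma baseChange {α : Nat.Primes → J → ℂ} (hα : ∀ p j, ‖α p j‖ ≤ 1) :
    ∃ C : ℝ, ∀ᶠ x : ℝ in 𝓝[>] 1,
      |Real.log ‖kL (K := K) (fun v j => α (below v) j ^ deg v) (x : ℂ)‖ -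
        Real.log ‖eulerL α (x : ℂ)‖| ≤ 2 * Fintype.card J * D0 K x + C := by
  classical
  obtain ⟨C1, hC1⟩ := sum_R_bdd (K := K)
  set T : ℝ := (Fintype.card J : ℝ) with hT
  have hT0 : 0 ≤ T := by positivity
  refine ⟨T * CK K + T * Module.finrank ℚ K * C0 + T * C0 + T * C1, ?_⟩
  filter_upwards [hC1, self_mem_nhdsWithin] with x h1 hx1
  have hx : 1 < x := hx1
  have hx' : (1 : ℝ) < ((x : ℂ)).re := by simpa using hx
  have hγ : ∀ (v : HeightOneSpectrum (𝓞 K)) (j : J), ‖α (below v) j ^ deg v‖ ≤ 1 := fun v j => by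
    rw [norm_pow]
    exact pow_le_one₀ (norm_nonneg _) (hα _ _)
  have hK := (kL_log hγ hx).2
  have hQ := (eulerL_log hα hx').2
  -- rewrite the rational side
  have hsQ : (∑' p : Nat.Primes, (∑ j, α p j) * ((p : ℕ) : ℂ) ^ (-(x : ℂ))).re =
      ∑' p : Nat.Primes, (∑ j, α p j).re * w x p := by
    have e : ∀ p : Nat.Primes, (∑ j, α p j) * ((p : ℕ) : ℂ) ^ (-(x : ℂ)) =
        (∑ j, α p j) * ((w x p : ℝ) : ℂ) := by
      intro p
      unfold w
      rw [Complex.ofReal_cpow (by positivity)]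
      simp
    rw [tsum_congr e]
    have hs : Summable (fun p : Nat.Primes => (∑ j, α p j) * ((w x p : ℝ) : ℂ)) := by
      refine Summable.of_norm_bounded ((w_summable hx).mul_left T) fun p => ?_
      rw [norm_mul, Complex.norm_real, Real.norm_eq_abs, abs_of_nonneg (w_nonneg x p)]
      exact mul_le_mul_of_nonneg_right (sum_norm_le hα p) (w_nonneg x p)
    rw [Complex.re_tsum hs]
    exact tsum_congr fun p => by rw [Complex.re_mul_ofReal]
  rw [hsQ] at hQ
  have hgb : ∀ v : HeightOneSpectrum (𝓞 K), |(∑ j, α (below v) j ^ deg v).re| ≤ T := by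
    intro v
    refine (Complex.abs_re_le_norm _).trans ((norm_sum_le _ _).trans ?_)
    calc ∑ j, ‖α (below v) j ^ deg v‖ ≤ ∑ _j : J, (1 : ℝ) := Finset.sum_le_sum fun j _ => hγ v j
      _ = Fintype.card J := by simp
  have hd := deg_two_bound (K := K) hx hgb
  have hfib : ∀ p : Nat.Primes, (∑ v : {v : HeightOneSpectrum (𝓞 K) // below v = p},
      if deg v.1 = 1 then (∑ j, α (below v.1) j ^ deg v.1).re else 0) =
      (R K p : ℝ) * (∑ j, α p j).re := by
    intro p
    unfold R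
    rw [Finset.card_filter]
    push_cast
    rw [Finset.sum_mul]
    refine Finset.sum_congr rfl fun v _ => ?_
    split_ifs with h
    · rw [h, v.2]; simp
    · simp
  simp only [hfib] at hd
  have hs1 : Summable (fun p : Nat.Primes => (R K p : ℝ) * (∑ j, α p j).re * w x p) :=
    bddmul_summable hx (C := Module.finrank ℚ K * T) fun p => by
      rw [abs_mul, abs_of_nonneg (a := (R K p : ℝ)) (by positivity)]
      have a1 : (R K p : ℝ) ≤ Module.finrank ℚ K := by exact_mod_cast R_le p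
      have a2 : |(∑ j, α p j).re| ≤ T := (Complex.abs_re_le_norm _).trans (sum_norm_le hα p)
      exact mul_le_mul a1 a2 (abs_nonneg _) (by positivity)
  have hs2 : Summable (fun p : Nat.Primes => (∑ j, α p j).re * w x p) :=
    bddmul_summable hx (C := T) fun p => (Complex.abs_re_le_norm _).trans (sum_norm_le hα p)
  have hdiff : |∑' p : Nat.Primes, (R K p : ℝ) * (∑ j, α p j).re * w x p -
      ∑' p : Nat.Primes, (∑ j, α p j).re * w x p| ≤ T * ∑' p : Nat.Primes, |(R K p : ℝ) - 1| * w x p := by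
    rw [← Summable.tsum_sub hs1 hs2]
    have hsa : Summable (fun p : Nat.Primes => |(R K p : ℝ) - 1| * w x p) :=
      bddmul_summable hx (C := Module.finrank ℚ K + 1) fun p => by
        rw [abs_abs]
        have a1 : (R K p : ℝ) ≤ Module.finrank ℚ K := by exact_mod_cast R_le p
        have a0 : (0 : ℝ) ≤ (R K p : ℝ) := by positivity
        rw [abs_le]
        constructor <;> linarith [Nat.cast_nonneg (α := ℝ) (Module.finrank ℚ K)]
    have := tsum_of_norm_bounded (f := fun p : Nat.Primes =>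
      (R K p : ℝ) * (∑ j, α p j).re * w x p - (∑ j, α p j).re * w x p)
      (hsa.mul_left T).hasSum (fun p => by
        have e : (R K p : ℝ) * (∑ j, α p j).re * w x p - (∑ j, α p j).re * w x p =
          (((R K p : ℝ) - 1) * (∑ j, α p j).re) * w x p := by ring
        rw [e, norm_mul, Real.norm_eq_abs, Real.norm_eq_abs, abs_of_nonneg (w_nonneg x p),
          abs_mul]
        have a2 : |(∑ j, α p j).re| ≤ T := (Complex.abs_re_le_norm _).trans (sum_norm_le hα p)
        have a3 : |(R K p : ℝ) - 1| * |(∑ j, α p j).re| ≤ T * |(R K p : ℝ) - 1| := by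
          rw [mul_comm]
          exact mul_le_mul_of_nonneg_right a2 (abs_nonneg _)
        calc _ ≤ (T * |(R K p : ℝ) - 1|) * w x p := mul_le_mul_of_nonneg_right a3 (w_nonneg x p)
          _ = _ := by ring)
    rw [Real.norm_eq_abs, tsum_mul_left] at this
    exact this
  -- `|R-1| = (R-1) + 2·[R=0]`
  have habs : ∑' p : Nat.Primes, |(R K p : ℝ) - 1| * w x p =
      ∑' p : Nat.Primes, ((R K p : ℝ) - 1) * w x p + 2 * D0 K x := by
    unfold D0
    rw [← tsum_mul_left, ← Summable.tsum_add]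
    · refine tsum_congr fun p => ?_
      split_ifs with h
      · rw [h]; norm_num; ring
      · have h1 : (1 : ℝ) ≤ (R K p : ℝ) := by exact_mod_cast Nat.one_le_iff_ne_zero.mpr h
        rw [abs_of_nonneg (by linarith)]
        ring
    · exact bddmul_summable hx (C := Module.finrank ℚ K + 1) fun p => by
        have a1 : (R K p : ℝ) ≤ Module.finrank ℚ K := by exact_mod_cast R_le p
        have a0 : (0 : ℝ) ≤ (R K p : ℝ) := by positivity
        rw [abs_le]
        constructor <;> linarith [Nat.cast_nonneg (α := ℝ) (Module.finrank ℚ K)]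
    · refine Summable.mul_left 2 (bddmul_summable hx (C := 1) fun p => ?_)
      split_ifs <;> simp
  rw [habs] at hdiff
  have k1 := abs_le.mp hK
  have k2 := abs_le.mp hQ
  have k3 := abs_le.mp hd
  have k4 := abs_le.mp hdiff
  have k5 := abs_le.mp h1
  have k6 : T * (∑' p : Nat.Primes, ((R K p : ℝ) - 1) * w x p + 2 * D0 K x) ≤
      T * C1 + 2 * T * D0 K x := by
    have := mul_le_mul_of_nonneg_left k5.2 hT0
    nlinarith
  rw [abs_le]
  constructor
  · linarith [k1.1, k2.2, k3.1, k4.1]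
  · linarith [k1.2, k2.1, k3.2, k4.2]

end

end Pool.Agent.H921R2.TatePole
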