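import Pool.Agent.H47.L.R_seed8.H921R2.TatePole.Radical

set_option autoImplicit false
set_option linter.unusedSectionVars false

open Complex Filter Topology NumberField IsDedekindDomain

namespace Pool.Agent.H921R2.TatePole

/-- the number of ring homomorphisms to `𝔽_p` -/
noncomputable def hc (A : Type*) [CommRing A] (p : ℕ) : ℕ := Nat.card (A →+* ZMod p)

section
variable {K : Type} [Field K] [NumberField K]

/-- the prime ideal of a homomorphism to `𝔽_p` -/
noncomputable def kerPrime (p : Nat.Primes) (φ : 𝓞 K →+* ZMod (p : ℕ)) :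
    {v : {v : HeightOneSpectrum (𝓞 K) // below v = p} // deg v.1 = 1} := by
  have : Fact (p : ℕ).Prime := ⟨p.prop⟩
  have hpk : (((p : ℕ) : 𝓞 K)) ∈ RingHom.ker φ := by
    rw [RingHom.mem_ker, map_natCast]
    exact ZMod.natCast_self _
  have hne : RingHom.ker φ ≠ ⊥ := by
    intro h
    rw [h, Ideal.mem_bot] at hpk
    exact p.prop.ne_zero (by exact_mod_cast hpk)
  have hb : below (K := K) ⟨RingHom.ker φ, RingHom.ker_isPrime φ, hne⟩ = p := below_eq_of_mem hpk
  refine ⟨⟨⟨RingHom.ker φ, RingHom.ker_isPrime φ, hne⟩, hb⟩, ?_⟩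
  have hcard : nm (K := K) ⟨RingHom.ker φ, RingHom.ker_isPrime φ, hne⟩ = (p : ℕ) := by
    have e := RingHom.quotientKerEquivOfSurjective (ZMod.ringHom_surjective φ)
    have h1 : Nat.card (𝓞 K ⧸ RingHom.ker φ) = Nat.card (ZMod (p : ℕ)) :=
      Nat.card_congr e.toEquiv
    rw [Nat.card_zmod] at h1
    exact h1
  have h2 := (nm_eq (K := K) ⟨RingHom.ker φ, RingHom.ker_isPrime φ, hne⟩).1
  rw [hcard, hb] at h2
  have h3 : (p : ℕ) ^ 1 = (p : ℕ) ^ deg (K := K) ⟨RingHom.ker φ, RingHom.ker_isPrime φ, hne⟩ := by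
    rw [pow_one]; exact h2
  exact (Nat.pow_right_injective p.prop.two_le h3).symm

lemma hom_ext_of_ker {A : Type*} [CommRing A] {p : ℕ} {φ ψ : A →+* ZMod p}
    (h : RingHom.ker φ = RingHom.ker ψ) : φ = ψ := by
  ext x
  obtain ⟨n, hn⟩ := ZMod.intCast_surjective (φ x)
  have h1 : x - (n : A) ∈ RingHom.ker φ := by
    rw [RingHom.mem_ker, map_sub, map_intCast, hn, sub_self]
  rw [h, RingHom.mem_ker, map_sub, map_intCast] at h1
  rw [← hn]
  exact (sub_eq_zero.mp h1).symm

lemma kerPrime_bijective (p : Nat.Primes) : Function.Bijective (kerPrime (K := K) p) := by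
  have : Fact (p : ℕ).Prime := ⟨p.prop⟩
  constructor
  · intro φ ψ h
    apply hom_ext_of_ker
    have := congrArg (fun v => v.1.1.asIdeal) h
    exact this
  · rintro ⟨⟨v, hv⟩, hd⟩
    have hcard : Nat.card (𝓞 K ⧸ v.asIdeal) = (p : ℕ) := by
      have h1 := (nm_eq v).1
      simp only at hd
      rw [hd, pow_one, hv] at h1
      exact h1
    have hfin : Finite (𝓞 K ⧸ v.asIdeal) := Nat.finite_of_card_ne_zero (by
      rw [hcard]; exact p.prop.ne_zero)
    have := Fintype.ofFinite (𝓞 K ⧸ v.asIdeal)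
    have hc' : Fintype.card (𝓞 K ⧸ v.asIdeal) = (p : ℕ) := by
      rw [← Nat.card_eq_fintype_card]; exact hcard
    set e := ZMod.ringEquivOfPrime (𝓞 K ⧸ v.asIdeal) p.prop hc' with he
    refine ⟨(e.symm : 𝓞 K ⧸ v.asIdeal →+* ZMod (p : ℕ)).comp (Ideal.Quotient.mk v.asIdeal), ?_⟩
    apply Subtype.ext
    apply Subtype.ext
    apply HeightOneSpectrum.ext
    change RingHom.ker ((e.symm : 𝓞 K ⧸ v.asIdeal →+* ZMod (p : ℕ)).comp
      (Ideal.Quotient.mk v.asIdeal)) = v.asIdeal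
    ext x
    rw [RingHom.mem_ker, RingHom.comp_apply]
    rw [RingEquiv.coe_toRingHom, map_eq_zero_iff _ e.symm.injective]
    exact Ideal.Quotient.eq_zero_iff_mem

lemma R_eq_hc (p : Nat.Primes) : R K p = hc (𝓞 K) p := by
  classical
  unfold hc
  rw [Nat.card_congr (Equiv.ofBijective _ (kerPrime_bijective (K := K) p)),
    Nat.card_eq_fintype_card, Fintype.card_subtype]
  rfl

lemma hom_finite (p : Nat.Primes) : Finite (𝓞 K →+* ZMod (p : ℕ)) :=
  Finite.of_injective _ (kerPrime_bijective (K := K) p).1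

end

/-- restriction of homomorphisms to a subring of finite index -/
lemma restrict_injective {A B : Type*} [CommRing A] [CommRing B] (f : A →+* B) {N : ℤ}
    (hN : ∀ b : B, ∃ a : A, f a = (N : B) * b) {p : ℕ} [Fact p.Prime] (hp : ¬ (p : ℤ) ∣ N)
    {φ ψ : B →+* ZMod p} (h : φ.comp f = ψ.comp f) : φ = ψ := by
  have hN0 : (N : ZMod p) ≠ 0 := by
    rwa [Ne, ZMod.intCast_zmod_eq_zero_iff_dvd]
  ext b
  obtain ⟨a, ha⟩ := hN b
  have h1 := RingHom.congr_fun h a
  rw [RingHom.comp_apply, RingHom.comp_apply, ha, map_mul, map_mul, map_intCast, map_intCast] at h1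
  exact mul_left_cancel₀ hN0 h1

lemma extend_hom {A B : Type*} [CommRing A] [CommRing B] (f : A →+* B) {N : ℤ}
    (hN : ∀ b : B, ∃ a : A, f a = (N : B) * b) {p : ℕ} [Fact p.Prime] (hp : ¬ (p : ℤ) ∣ N)
    (φ : A →+* ZMod p) (hker : RingHom.ker f ≤ RingHom.ker φ) :
    ∃ ψ : B →+* ZMod p, ψ.comp f = φ := by
  have hN0 : (N : ZMod p) ≠ 0 := by
    rwa [Ne, ZMod.intCast_zmod_eq_zero_iff_dvd]
  have hwd : ∀ a a' : A, f a = f a' → φ a = φ a' := by
    intro a a' h
    have : a - a' ∈ RingHom.ker f := by rw [RingHom.mem_ker, map_sub, h, sub_self]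
    have := hker this
    rw [RingHom.mem_ker, map_sub] at this
    exact sub_eq_zero.mp this
  choose g hg using hN
  have hmul : ∀ b : B, ∀ a : A, f a = (N : B) * b → φ a = φ (g b) := fun b a h =>
    hwd _ _ (by rw [h, hg])
  refine ⟨⟨⟨⟨fun b => (N : ZMod p)⁻¹ * φ (g b), ?_⟩, ?_⟩, ?_, ?_⟩, ?_⟩
  · rw [← hmul 1 (N : A) (by rw [map_intCast, mul_one]), map_intCast]
    exact inv_mul_cancel₀ hN0
  · intro x y
    simp only
    have h1 : φ (g x * g y) = (N : ZMod p) * φ (g (x * y)) := by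
      have h2 : f (g x * g y) = f ((N : A) * g (x * y)) := by
        rw [map_mul, hg, hg, map_mul, hg, map_intCast]; ring
      rw [hwd _ _ h2, map_mul, map_intCast]
    rw [map_mul] at h1
    calc (N : ZMod p)⁻¹ * φ (g (x * y)) = (N : ZMod p)⁻¹ * ((N : ZMod p)⁻¹ *
          ((N : ZMod p) * φ (g (x * y)))) := by rw [inv_mul_cancel_left₀ hN0]
      _ = (N : ZMod p)⁻¹ * φ (g x) * ((N : ZMod p)⁻¹ * φ (g y)) := by rw [← h1]; ring
  · simp only
    rw [← hmul 0 0 (by simp), map_zero, mul_zero]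
  · intro x y
    simp only
    rw [← hmul (x + y) (g x + g y) (by rw [map_add, hg, hg]; ring), map_add, mul_add]
  · ext a
    simp only [RingHom.comp_apply, RingHom.coe_mk, MonoidHom.coe_mk, OneHom.coe_mk]
    rw [← hmul (f a) ((N : A) * a) (by rw [map_mul, map_intCast]), map_mul, map_intCast,
      inv_mul_cancel_left₀ hN0]

end Pool.Agent.H921R2.TatePole
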