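import Pool.Agent.H47.L.R_seed8.H921R2.TatePole.BaseChange

set_option autoImplicit false

open Complex Filter Topology NumberField IsDedekindDomain Polynomial

namespace Pool.Agent.H921R2.TatePole

set_option linter.unusedSectionVars false

section
variable {K : Type} [Field K] [NumberField K]

/-- `N · 𝓞 K ⊆ ℤ[θ]` for some nonzero integer `N`. -/
lemma exists_index {θ : 𝓞 K} (h : Algebra.adjoin ℚ {(θ : K)} = ⊤) :
    ∃ N : ℤ, N ≠ 0 ∧ ∀ x : 𝓞 K, ∃ A : ℤ[X], (N : 𝓞 K) * x = aeval θ A := by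
  have hint : IsIntegral ℤ (θ : K) := RingOfIntegers.isIntegral_coe θ
  have hintQ : IsIntegral ℚ (θ : K) := hint.tower_top
  set B := PowerBasis.ofAdjoinEqTop hintQ h with hB
  have hgen : B.gen = (θ : K) := by rw [hB]; simp
  have hd0 : Algebra.discr ℚ B.basis ≠ 0 := Algebra.discr_not_zero_of_basis ℚ B.basis
  have hdint : IsIntegral ℤ (Algebra.discr ℚ B.basis) := by
    refine Algebra.discr_isIntegral ℚ fun i => ?_
    rw [B.basis_eq_pow, hgen]
    exact hint.pow _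
  obtain ⟨N, hN⟩ := IsIntegrallyClosed.isIntegral_iff.mp hdint
  refine ⟨N, ?_, fun x => ?_⟩
  · rintro rfl
    apply hd0
    rw [← hN]; simp
  · have h1 := Algebra.discr_mul_isIntegral_mem_adjoin (R := ℤ) ℚ (B := B) (by rw [hgen]; exact hint)
      (RingOfIntegers.isIntegral_coe x)
    rw [hgen, Algebra.adjoin_singleton_eq_range_aeval] at h1
    obtain ⟨A, hA⟩ := h1
    refine ⟨A, ?_⟩
    apply RingOfIntegers.ext
    rw [← hN] at hA
    have h2 : ((aeval θ A : 𝓞 K) : K) = aeval (θ : K) A := by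
      have := Polynomial.aeval_algebraMap_apply K θ A
      exact this.symm
    have hA' : aeval (θ : K) A = (algebraMap ℤ ℚ) N • (x : K) := hA
    rw [h2, hA', Algebra.smul_def]
    simp

lemma minpoly_eq {θ : 𝓞 K} (h : Algebra.adjoin ℚ {(θ : K)} = ⊤) {q : ℕ} (hq : 0 < q)
    (hK : Module.finrank ℚ K = q) {a : ℤ} (ha : θ ^ q = (a : 𝓞 K)) :
    minpoly ℤ θ = X ^ q - C a := by
  have hint : IsIntegral ℤ θ := RingOfIntegers.isIntegral θ
  have hintQ : IsIntegral ℚ (θ : K) := (RingOfIntegers.isIntegral_coe θ).tower_top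
  have hd : minpoly ℤ θ ∣ X ^ q - C a := by
    refine minpoly.isIntegrallyClosed_dvd hint ?_
    simp [ha]
  have hB := (PowerBasis.ofAdjoinEqTop hintQ h).finrank
  rw [hK, PowerBasis.ofAdjoinEqTop_dim] at hB
  have e : minpoly ℚ (θ : K) = (minpoly ℤ θ).map (algebraMap ℤ ℚ) := by
    exact minpoly.isIntegrallyClosed_eq_field_fractions ℚ K hint
  have hdeg : (minpoly ℤ θ).natDegree = q := by
    rw [hB, e, (minpoly.monic hint).natDegree_map]
  symm
  refine Polynomial.eq_of_dvd_of_natDegree_le_of_leadingCoeff hd ?_ ?_ |>.symm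
  · rw [hdeg]
    exact le_of_eq (natDegree_X_pow_sub_C)
  · rw [(minpoly.monic hint).leadingCoeff, (monic_X_pow_sub_C a hq.ne').leadingCoeff]

/-- reduction of relations at a root modulo `p` -/
lemma eval_eq_zero {θ : 𝓞 K} (h : Algebra.adjoin ℚ {(θ : K)} = ⊤) {q : ℕ} (hq : 0 < q)
    (hK : Module.finrank ℚ K = q) {a : ℤ} (ha : θ ^ q = (a : 𝓞 K)) {p : ℕ} {c : ℤ}
    (hc : (p : ℤ) ∣ c ^ q - a) {A : ℤ[X]} (hA : aeval θ A = 0) : (p : ℤ) ∣ A.eval c := by
  have hd := minpoly.isIntegrallyClosed_dvd (RingOfIntegers.isIntegral θ) hA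
  rw [minpoly_eq h hq hK ha] at hd
  have := eval_dvd (x := c) hd
  simp only [eval_sub, eval_pow, eval_X, eval_C] at this
  exact hc.trans this

/-- the `q`-th power map is bijective modulo `p` when `q ∤ p - 1` -/
lemma pow_bijective {p q : ℕ} [Fact p.Prime] (hq : 0 < q) (h : (p - 1).Coprime q) :
    Function.Bijective (fun x : ZMod p => x ^ q) := by
  have hp : p.Prime := Fact.out
  have hcard : Nat.card (ZMod p)ˣ = p - 1 := by
    rw [Nat.card_eq_fintype_card, ZMod.card_units_eq_totient, Nat.totient_prime hp]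
  have h' : (Nat.card (ZMod p)ˣ).Coprime q := by rwa [hcard]
  rw [Finite.injective_iff_bijective.symm]
  intro x y hxy
  simp only at hxy
  by_cases hx : x = 0
  · subst hx
    rw [zero_pow hq.ne'] at hxy
    exact (pow_eq_zero_iff hq.ne').mp hxy.symm |>.symm
  · by_cases hy : y = 0
    · subst hy
      rw [zero_pow hq.ne'] at hxy
      exact absurd ((pow_eq_zero_iff hq.ne').mp hxy) hx
    · have := (powCoprime h').injective (a₁ := Units.mk0 x hx) (a₂ := Units.mk0 y hy) (by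
        rw [powCoprime_apply, powCoprime_apply]
        apply Units.ext
        simpa using hxy)
      simpa using congrArg Units.val this

lemma int_mem_iff (v : HeightOneSpectrum (𝓞 K)) (n : ℤ) :
    (n : 𝓞 K) ∈ v.asIdeal ↔ ((below v : ℕ) : ℤ) ∣ n := by
  constructor
  · intro h
    by_contra hn
    have hcop : IsCoprime ((below v : ℕ) : ℤ) n :=
      (Nat.prime_iff_prime_int.mp (below v).prop).coprime_iff_not_dvd.mpr hn
    obtain ⟨u, t, hut⟩ := hcop
    apply v.isPrime.ne_top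
    rw [Ideal.eq_top_iff_one]
    have e : (1 : 𝓞 K) = (u : 𝓞 K) * ((below v : ℕ) : 𝓞 K) + (t : 𝓞 K) * (n : 𝓞 K) := by
      have := congrArg (fun z : ℤ => (z : 𝓞 K)) hut
      push_cast at this
      exact this.symm
    rw [e]
    exact v.asIdeal.add_mem (v.asIdeal.mul_mem_left _ (nm_eq v).2.2) (v.asIdeal.mul_mem_left _ h)
  · rintro ⟨k, rfl⟩
    push_cast
    exact v.asIdeal.mul_mem_right _ (nm_eq v).2.2

lemma below_eq_of_mem {v : HeightOneSpectrum (𝓞 K)} {p : Nat.Primes}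
    (h : (((p : ℕ) : 𝓞 K)) ∈ v.asIdeal) : below v = p := by
  have h1 : ((below v : ℕ) : ℤ) ∣ ((p : ℕ) : ℤ) := by
    rw [← int_mem_iff]
    push_cast
    exact h
  have h2 : (below v : ℕ) ∣ (p : ℕ) := by exact_mod_cast h1
  exact Subtype.ext ((Nat.prime_dvd_prime_iff_eq (below v).prop p.prop).mp h2)

lemma aeval_sub_mem {θ : 𝓞 K} {I : Ideal (𝓞 K)} {c : ℤ} (h : θ - (c : 𝓞 K) ∈ I) (A : ℤ[X]) :
    aeval θ A - ((A.eval c : ℤ) : 𝓞 K) ∈ I := by
  have h1 : ((A.eval c : ℤ) : 𝓞 K) = aeval (c : 𝓞 K) A := by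
    have := Polynomial.aeval_algebraMap_apply (𝓞 K) c A
    simp only [algebraMap_int_eq, eq_intCast] at this
    rw [this]
    simp [Polynomial.aeval_def, Polynomial.eval₂_eq_eval_map]
  rw [h1]
  have h2 : θ - (c : 𝓞 K) ∣ aeval θ A - aeval (c : 𝓞 K) A := by
    rw [Polynomial.aeval_def, Polynomial.aeval_def, Polynomial.eval₂_eq_eval_map,
      Polynomial.eval₂_eq_eval_map]
    exact Polynomial.sub_dvd_eval_sub _ _ _
  obtain ⟨k, hk⟩ := h2
  rw [hk]
  exact I.mul_mem_right _ h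

/-- existence of a degree one prime above `p` from a root modulo `p` -/
lemma exists_deg_one {θ : 𝓞 K} (h : Algebra.adjoin ℚ {(θ : K)} = ⊤) {q : ℕ} (hq : 0 < q)
    (hK : Module.finrank ℚ K = q) {a : ℤ} (ha : θ ^ q = (a : 𝓞 K)) {N : ℤ}
    (hN : ∀ x : 𝓞 K, ∃ A : ℤ[X], (N : 𝓞 K) * x = aeval θ A) (p : Nat.Primes)
    (hpN : ¬ ((p : ℕ) : ℤ) ∣ N) {c : ℤ} (hc : ((p : ℕ) : ℤ) ∣ c ^ q - a) :
    ∃ v : HeightOneSpectrum (𝓞 K), below v = p ∧ deg v = 1 := by
  set I : Ideal (𝓞 K) := Ideal.span {((p : ℕ) : 𝓞 K), θ - (c : 𝓞 K)} with hI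
  have hItop : I ≠ ⊤ := by
    intro htop
    have h1 : (1 : 𝓞 K) ∈ I := by rw [htop]; trivial
    rw [hI, Ideal.mem_span_pair] at h1
    obtain ⟨α, β, hαβ⟩ := h1
    obtain ⟨A, hA⟩ := hN α
    obtain ⟨B, hB⟩ := hN β
    have h0 : aeval θ (C N - C ((p : ℕ) : ℤ) * A - (X - C c) * B) = 0 := by
      simp only [map_sub, map_mul, aeval_X, eq_intCast, map_intCast]
      rw [← hA, ← hB]
      have : (N : 𝓞 K) = N * (α * ((p : ℕ) : 𝓞 K) + β * (θ - (c : 𝓞 K))) := by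
        rw [hαβ, mul_one]
      push_cast
      linear_combination this
    have h2 := eval_eq_zero h hq hK ha hc h0
    simp only [eval_sub, eval_mul, eval_C, eval_X, sub_self, zero_mul, sub_zero] at h2
    apply hpN
    have h3 := (Dvd.intro (A.eval c) (rfl : ((p : ℕ) : ℤ) * A.eval c = _))
    have := dvd_add h2 h3
    simpa using this
  obtain ⟨M, hM, hIM⟩ := Ideal.exists_le_maximal I hItop
  have hpM : ((p : ℕ) : 𝓞 K) ∈ M := hIM (Ideal.subset_span (by simp))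
  have hθM : θ - (c : 𝓞 K) ∈ M := hIM (Ideal.subset_span (by simp))
  have hM0 : M ≠ ⊥ := by
    rintro rfl
    rw [Ideal.mem_bot] at hpM
    exact p.prop.ne_zero (by exact_mod_cast hpM)
  set v : HeightOneSpectrum (𝓞 K) := ⟨M, hM.isPrime, hM0⟩ with hv
  have hbelow : below v = p := below_eq_of_mem hpM
  refine ⟨v, hbelow, ?_⟩
  -- every element is congruent to an integer
  have hcop : IsCoprime ((p : ℕ) : ℤ) N :=
    (Nat.prime_iff_prime_int.mp p.prop).coprime_iff_not_dvd.mpr hpN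
  obtain ⟨t, u, hut⟩ := hcop
  have hpM' : (((p : ℕ) : ℤ) : 𝓞 K) ∈ M := by push_cast; exact hpM
  have hint : ∀ x : 𝓞 K, ∃ n : ℤ, x - (n : 𝓞 K) ∈ M := by
    intro x
    obtain ⟨A, hA⟩ := hN x
    refine ⟨u * A.eval c, ?_⟩
    have e : x - ((u * A.eval c : ℤ) : 𝓞 K) =
        (t : 𝓞 K) * x * (((p : ℕ) : ℤ) : 𝓞 K) + (u : 𝓞 K) * (aeval θ A - ((A.eval c : ℤ) : 𝓞 K)) := by
      rw [← hA]
      have := congrArg (fun z : ℤ => (z : 𝓞 K)) hut
      push_cast at this ⊢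
      linear_combination (-x) * this
    rw [e]
    exact M.add_mem (M.mul_mem_left _ hpM') (M.mul_mem_left _ (aeval_sub_mem hθM A))
  have hsurj : Function.Surjective (fun z : Fin (p : ℕ) => (((z : ℕ) : 𝓞 K ⧸ M))) := by
    intro y
    obtain ⟨x, rfl⟩ := Ideal.Quotient.mk_surjective y
    obtain ⟨n, hn⟩ := hint x
    have hp0 : (0 : ℤ) < ((p : ℕ) : ℤ) := by exact_mod_cast p.prop.pos
    refine ⟨⟨(n % ((p : ℕ) : ℤ)).toNat, ?_⟩, ?_⟩
    · have := Int.emod_lt_of_pos n hp0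
      have h0 := Int.emod_nonneg n hp0.ne'
      omega
    · simp only
      have h0 := Int.emod_nonneg n hp0.ne'
      have e : (((n % ((p : ℕ) : ℤ)).toNat : ℕ) : 𝓞 K ⧸ M) = ((n % ((p : ℕ) : ℤ) : ℤ) : 𝓞 K ⧸ M) := by
        rw [← Int.cast_natCast, Int.toNat_of_nonneg h0]
      rw [e]
      have e2 : ((n % ((p : ℕ) : ℤ) : ℤ) : 𝓞 K ⧸ M) =
          Ideal.Quotient.mk M ((n % ((p : ℕ) : ℤ) : ℤ) : 𝓞 K) := by simp
      rw [e2, eq_comm, Ideal.Quotient.eq]
      have e3 : x - ((n % ((p : ℕ) : ℤ) : ℤ) : 𝓞 K) = (x - (n : 𝓞 K)) +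
          ((n / ((p : ℕ) : ℤ) : ℤ) : 𝓞 K) * (((p : ℕ) : ℤ) : 𝓞 K) := by
        have := congrArg (fun z : ℤ => (z : 𝓞 K)) (Int.emod_add_mul_ediv n ((p : ℕ) : ℤ))
        push_cast at this ⊢
        linear_combination (-1 : 𝓞 K) * this
      rw [e3]
      exact M.add_mem hn (M.mul_mem_left _ hpM')
  have hcard : nm v ≤ (p : ℕ) := by
    have := Nat.card_le_card_of_surjective _ hsurj
    rw [Nat.card_fin] at this
    exact this
  obtain ⟨h1, h2, _⟩ := nm_eq v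
  rw [h1, hbelow] at hcard
  have h3 : (p : ℕ) ^ deg v ≤ (p : ℕ) ^ 1 := by rwa [pow_one]
  have := (Nat.pow_le_pow_iff_right p.prop.one_lt).mp h3
  omega

/-- in a degree one prime every element is congruent to an integer -/
lemma exists_int_congr {v : HeightOneSpectrum (𝓞 K)} (hv : deg v = 1) (x : 𝓞 K) :
    ∃ c : ℤ, x - (c : 𝓞 K) ∈ v.asIdeal := by
  have hcard : Nat.card (𝓞 K ⧸ v.asIdeal) = (below v : ℕ) := by
    have h1 := (nm_eq v).1
    rw [hv, pow_one] at h1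
    exact h1
  have hfin : Finite (𝓞 K ⧸ v.asIdeal) := Nat.finite_of_card_ne_zero (by
    rw [hcard]; exact (below v).prop.ne_zero)
  have hinj : Function.Injective (fun z : Fin (below v : ℕ) => (((z : ℕ) : 𝓞 K ⧸ v.asIdeal))) := by
    intro z y hzy
    simp only at hzy
    have e1 : Ideal.Quotient.mk v.asIdeal ((((z : ℕ) : ℤ)) : 𝓞 K) =
        Ideal.Quotient.mk v.asIdeal ((((y : ℕ) : ℤ)) : 𝓞 K) := by simpa using hzy
    rw [Ideal.Quotient.eq, ← Int.cast_sub, int_mem_iff] at e1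
    apply Fin.ext
    have h1 := Int.emod_emod_of_dvd
    obtain ⟨k, hk⟩ := e1
    have hz := z.2
    have hy := y.2
    have : k = 0 := by
      by_contra hk0
      rcases lt_or_gt_of_ne hk0 with h | h
      · have : ((below v : ℕ) : ℤ) * k ≤ ((below v : ℕ) : ℤ) * (-1) :=
          mul_le_mul_of_nonneg_left (by omega) (by positivity)
        omega
      · have : ((below v : ℕ) : ℤ) * 1 ≤ ((below v : ℕ) : ℤ) * k :=
          mul_le_mul_of_nonneg_left (by omega) (by positivity)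
        omega
    rw [this, mul_zero] at hk
    omega
  have hbij := (Nat.bijective_iff_injective_and_card _).mpr ⟨hinj, by
    rw [hcard, Nat.card_eq_fintype_card, Fintype.card_fin]⟩
  obtain ⟨z, hz⟩ := hbij.2 (Ideal.Quotient.mk v.asIdeal x)
  refine ⟨((z : ℕ) : ℤ), ?_⟩
  rw [← Ideal.Quotient.eq, ← hz]
  simp

/-- uniqueness of the degree one prime above `p` if `q ∤ p - 1` -/
lemma unique_deg_one {θ : 𝓞 K} {q : ℕ} (hq : 0 < q) {a : ℤ} (ha : θ ^ q = (a : 𝓞 K)) {N : ℤ}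
    (hN : ∀ x : 𝓞 K, ∃ A : ℤ[X], (N : 𝓞 K) * x = aeval θ A) (p : Nat.Primes)
    (hpN : ¬ ((p : ℕ) : ℤ) ∣ N) (hpq : ((p : ℕ) - 1).Coprime q)
    {v u : HeightOneSpectrum (𝓞 K)} (hv : below v = p) (hv1 : deg v = 1) (hu : below u = p)
    (hu1 : deg u = 1) : v = u := by
  have : Fact (p : ℕ).Prime := ⟨p.prop⟩
  obtain ⟨c, hc⟩ := exists_int_congr hv1 θ
  obtain ⟨b, hb⟩ := exists_int_congr hu1 θ
  have key : ∀ (x : HeightOneSpectrum (𝓞 K)) (d : ℤ), below x = p → θ - (d : 𝓞 K) ∈ x.asIdeal →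
      ((d : ℤ) : ZMod (p : ℕ)) ^ q = ((a : ℤ) : ZMod (p : ℕ)) := by
    intro x d hx hd
    have h1 : ((a - d ^ q : ℤ) : 𝓞 K) ∈ x.asIdeal := by
      push_cast
      rw [← ha]
      obtain ⟨k, hk⟩ := sub_dvd_pow_sub_pow θ (d : 𝓞 K) q
      rw [hk]
      exact x.asIdeal.mul_mem_right _ hd
    rw [int_mem_iff, hx] at h1
    rw [← Int.cast_pow, eq_comm, ← sub_eq_zero, ← Int.cast_sub]
    exact (ZMod.intCast_zmod_eq_zero_iff_dvd _ _).mpr h1
  have h3 : ((c : ℤ) : ZMod (p : ℕ)) = ((b : ℤ) : ZMod (p : ℕ)) :=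
    (pow_bijective hq hpq).1 (by simp only; rw [key v c hv hc, key u b hu hb])
  have h4 : ((p : ℕ) : ℤ) ∣ c - b := by
    rw [← ZMod.intCast_zmod_eq_zero_iff_dvd]
    push_cast
    rw [h3, sub_self]
  -- `θ - b ∈ v` as well
  have hbv : θ - (b : 𝓞 K) ∈ v.asIdeal := by
    have : ((c - b : ℤ) : 𝓞 K) ∈ v.asIdeal := by rw [int_mem_iff, hv]; exact h4
    have e : θ - (b : 𝓞 K) = (θ - (c : 𝓞 K)) + ((c - b : ℤ) : 𝓞 K) := by push_cast; ring
    rw [e]
    exact v.asIdeal.add_mem hc this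
  have hle : v.asIdeal ≤ u.asIdeal := by
    intro x hx
    obtain ⟨A, hA⟩ := hN x
    have h5 : aeval θ A ∈ v.asIdeal := by rw [← hA]; exact v.asIdeal.mul_mem_left _ hx
    have h6 : ((A.eval b : ℤ) : 𝓞 K) ∈ v.asIdeal := by
      have := v.asIdeal.sub_mem h5 (aeval_sub_mem hbv A)
      simpa using this
    rw [int_mem_iff, hv, ← hu, ← int_mem_iff] at h6
    have h7 : aeval θ A ∈ u.asIdeal := by
      have := u.asIdeal.add_mem (aeval_sub_mem hb A) h6
      simpa using this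
    rw [← hA] at h7
    rcases u.isPrime.mem_or_mem h7 with h8 | h8
    · rw [int_mem_iff, hu] at h8
      exact absurd h8 hpN
    · exact h8
  exact HeightOneSpectrum.ext ((v.isPrime.isMaximal v.ne_bot).eq_of_le u.isPrime.ne_top hle)

/-- exactly one degree one prime above `p` if `q ∤ p - 1` and `p ∤ N` -/
lemma R_eq_one {θ : 𝓞 K} (h : Algebra.adjoin ℚ {(θ : K)} = ⊤) {q : ℕ} (hq : 0 < q)
    (hK : Module.finrank ℚ K = q) {a : ℤ} (ha : θ ^ q = (a : 𝓞 K)) {N : ℤ}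
    (hN : ∀ x : 𝓞 K, ∃ A : ℤ[X], (N : 𝓞 K) * x = aeval θ A) (p : Nat.Primes)
    (hpN : ¬ ((p : ℕ) : ℤ) ∣ N) (hpq : ((p : ℕ) - 1).Coprime q) : R K p = 1 := by
  classical
  have : Fact (p : ℕ).Prime := ⟨p.prop⟩
  obtain ⟨z, hz⟩ := (pow_bijective hq hpq).2 ((a : ℤ) : ZMod (p : ℕ))
  obtain ⟨c, rfl⟩ := ZMod.intCast_surjective z
  have hc : ((p : ℕ) : ℤ) ∣ c ^ q - a := by
    rw [← ZMod.intCast_zmod_eq_zero_iff_dvd]
    push_cast
    simp only at hz
    rw [hz, sub_self]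
  obtain ⟨v, hv, hv1⟩ := exists_deg_one h hq hK ha hN p hpN hc
  unfold R
  rw [Finset.card_eq_one]
  refine ⟨⟨v, hv⟩, ?_⟩
  ext u
  simp only [Finset.mem_filter, Finset.mem_univ, true_and, Finset.mem_singleton]
  constructor
  · intro hu1
    exact Subtype.ext (unique_deg_one hq ha hN p hpN hpq u.2 hu1 hv hv1)
  · rintro rfl
    exact hv1

end

end Pool.Agent.H921R2.TatePole
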